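import Pool.Agent.W23.PP.Defs
import Mathlib.RingTheory.Polynomial.Resultant.Basic
import Mathlib.LinearAlgebra.Matrix.AbsoluteValue

/-! Resultants of coprime integer polynomials. -/

namespace Pool.Agent.W759.PP

open Polynomial
open Pool.Agent.W23.PP

theorem res_bound (k M N : ℕ) (hN : 2 ≤ N) (F G : ℤ[X])
    (hF : F.natDegree ≤ k) (hG : G.natDegree ≤ k)
    (hFc : ∀ i, |(F.coeff i : ℝ)| ≤ (N : ℝ) ^ M)
    (hGc : ∀ i, |(G.coeff i : ℝ)| ≤ (N : ℝ) ^ M) :
    |((resultant F G : ℤ) : ℝ)| ≤ (N : ℝ) ^ ((2 * k) ^ 2 + M * (2 * k)) := by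
  have hN1 : (1 : ℝ) ≤ N := by exact_mod_cast (by omega : 1 ≤ N)
  have hN2 : (2 : ℝ) ≤ N := by exact_mod_cast hN
  set m := F.natDegree with hm
  set n := G.natDegree with hn
  have hF' : ∀ i, |F.coeff i| ≤ ((N : ℤ) ^ M) := by
    intro i
    have := hFc i
    exact_mod_cast this
  have hG' : ∀ i, |G.coeff i| ≤ ((N : ℤ) ^ M) := by
    intro i
    have := hGc i
    exact_mod_cast this
  have h0 : (0 : ℤ) ≤ (N : ℤ) ^ M := by positivity
  have hent : ∀ i j, AbsoluteValue.abs (sylvester F G m n i j) ≤ ((N : ℤ) ^ M) := by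
    intro i j
    induction j using Fin.addCases with
    | left j₁ =>
      simp only [sylvester, Matrix.of_apply, Fin.addCases_left, AbsoluteValue.abs_apply]
      split_ifs
      · exact hG' _
      · exact (by simp)
    | right j₁ =>
      simp only [sylvester, Matrix.of_apply, Fin.addCases_right, AbsoluteValue.abs_apply]
      split_ifs
      · exact hF' _
      · exact (by simp)
  have hdet := Matrix.det_le (R := ℤ) (S := ℤ) (A := sylvester F G m n) hent
  rw [AbsoluteValue.abs_apply, Fintype.card_fin, nsmul_eq_mul] at hdet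
  have hdet' : |((resultant F G : ℤ) : ℝ)| ≤ ((m + n).factorial : ℝ) * ((N : ℝ) ^ M) ^ (m + n) := by
    have h1 : |resultant F G| ≤ ((m + n).factorial : ℤ) * ((N : ℤ) ^ M) ^ (m + n) := hdet
    exact_mod_cast h1
  have hmn : m + n ≤ 2 * k := by omega
  have hfac : ((m + n).factorial : ℝ) ≤ (N : ℝ) ^ ((2 * k) ^ 2) := by
    have h1 : (m + n).factorial ≤ (2 * k).factorial := Nat.factorial_le hmn
    have h2 : (2 * k).factorial ≤ (2 * k) ^ (2 * k) := Nat.factorial_le_pow (2 * k)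
    have h3 : (2 * k) ^ (2 * k) ≤ (2 ^ (2 * k)) ^ (2 * k) :=
      Nat.pow_le_pow_left (Nat.lt_two_pow_self).le _
    have h4 : (2 ^ (2 * k)) ^ (2 * k) = 2 ^ ((2 * k) ^ 2) := by
      rw [← pow_mul, sq]
    have h5 : 2 ^ ((2 * k) ^ 2) ≤ N ^ ((2 * k) ^ 2) := Nat.pow_le_pow_left hN _
    have h6 : (m + n).factorial ≤ N ^ ((2 * k) ^ 2) := by
      calc _ ≤ _ := h1
        _ ≤ _ := h2
        _ ≤ _ := h3
        _ = _ := h4
        _ ≤ _ := h5
    exact_mod_cast h6
  calc |((resultant F G : ℤ) : ℝ)| ≤ ((m + n).factorial : ℝ) * ((N : ℝ) ^ M) ^ (m + n) := hdet'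
    _ ≤ (N : ℝ) ^ ((2 * k) ^ 2) * ((N : ℝ) ^ M) ^ (2 * k) := by
        have h7 : ((N : ℝ) ^ M) ^ (m + n) ≤ ((N : ℝ) ^ M) ^ (2 * k) :=
          pow_le_pow_right₀ (one_le_pow₀ hN1) hmn
        exact mul_le_mul hfac h7 (by positivity) (by positivity)
    _ = (N : ℝ) ^ ((2 * k) ^ 2 + M * (2 * k)) := by
        rw [← pow_mul, ← pow_add]

theorem POLB : St_POLB := by
  intro k M hk
  refine ⟨(2 * k) ^ 2 + M * (2 * k) + M, ?_⟩
  intro N hN F G hF hG hFc hGc hco
  have hN1 : (1 : ℝ) ≤ N := by exact_mod_cast (by omega : 1 ≤ N)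
  by_cases hdeg : F.natDegree = 0 ∧ G.natDegree = 0
  · obtain ⟨hF0, hG0⟩ := hdeg
    have hFe : F = C (F.coeff 0) := eq_C_of_natDegree_eq_zero hF0
    have hGe : G = C (G.coeff 0) := eq_C_of_natDegree_eq_zero hG0
    have hle : (N : ℝ) ^ M ≤ (N : ℝ) ^ ((2 * k) ^ 2 + M * (2 * k) + M) :=
      pow_le_pow_right₀ hN1 (by omega)
    by_cases ha : F.coeff 0 = 0
    · have hb : G.coeff 0 ≠ 0 := by
        intro hb
        rw [ha] at hFe
        rw [hb] at hGe
        rw [hFe, hGe] at hco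
        simp only [map_zero, Polynomial.map_zero] at hco
        exact not_isCoprime_zero_zero hco
      refine ⟨G.coeff 0, hb, (hGc 0).trans hle, ?_⟩
      intro n l _ _ h2
      have h2' : (l : ℤ) ∣ G.eval n := h2
      rw [hGe, eval_C] at h2'
      exact h2'
    · refine ⟨F.coeff 0, ha, (hFc 0).trans hle, ?_⟩
      intro n l _ h1 _
      have h1' : (l : ℤ) ∣ F.eval n := h1
      rw [hFe, eval_C] at h1'
      exact h1'
  · have hne : F.natDegree ≠ 0 ∨ G.natDegree ≠ 0 := by
      by_contra hcon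
      push Not at hcon
      exact hdeg hcon
    refine ⟨resultant F G, ?_, ?_, ?_⟩
    · intro h0
      have h1 := resultant_ne_zero _ _ hco
      apply h1
      have hinj : Function.Injective (Int.castRingHom ℚ) := Int.cast_injective
      rw [natDegree_map_eq_of_injective hinj, natDegree_map_eq_of_injective hinj,
        resultant_map_map, h0, map_zero]
    · refine (res_bound k M N hN F G hF hG hFc hGc).trans ?_
      exact pow_le_pow_right₀ hN1 (by omega)
    · intro n l _ h1 h2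
      have h1' : (l : ℤ) ∣ F.eval n := h1
      have h2' : (l : ℤ) ∣ G.eval n := h2
      obtain ⟨p, q, -, -, e⟩ := exists_mul_add_mul_eq_C_resultant F G le_rfl le_rfl hne
      have h3 := congrArg (fun P : ℤ[X] => P.eval n) e
      simp only [eval_add, eval_mul, eval_C] at h3
      rw [← h3]
      exact dvd_add (Dvd.dvd.mul_right h1' _) (Dvd.dvd.mul_right h2' _)

end Pool.Agent.W759.PP
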